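import Pool.Agent.X84.Fi.Surf

/-!
# The `C^r` closing lemma for maps with first integrals

Let `N` be a closed manifold of dimension `n`, `1 ≤ r ≤ ∞` and `F ∈ Diff^r(N)`. Let `H : N → ℝᵏ` be
a `C^∞` map with `H ∘ F = H` and `X` a `C^∞` field with `dH(X) = 0` such that `F` maps `X` to a
positive multiple of `X`. A point is regular if `X ≠ 0` spans the kernel of `dH` there, so the
fibres of `H` are curves near this point. We show that every regular nonwandering point of `F` can be
made periodic by an arbitrarily `C^r`-small perturbation; the same holds at all nonwandering points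
if at most countably many nonwandering points are neither regular nor limits of periodic points. On
an oriented surface one first integral `h` is enough: `X` is its Hamiltonian field, and the regular
points are the noncritical points of `h`.

The perturbations are `φ_ε ∘ F` with the flow `φ` of `X`. If `F^m(y) = φ_d(y)` with small `d` then
`(φ_ε ∘ F)^m(y) = y` for some `|ε| ≤ |d|` by monotonicity along the orbits of `φ`.

Definitions: `FirstIntegrals`, `Regular`, `Oriented`, `CritSet` in `Pool/Agent/X84/Fi/Defs.lean`;
`Field`, `SmoothFields`, `SmoothForm` in `Pool/Agent/X84/Fm/Defs.lean`; `Closable` in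
`Pool/Agent/W564/SC/Defs.lean`; `Omega`, `Per` in `Pool/Agent/TH80/OMS`; the topology of `Diff^r` in
`Pool/Agent/H718R2/G0.lean`.
-/

set_option autoImplicit false

open scoped Manifold ContDiff Topology

universe u

namespace Pool.Agent.Results.MP_1e8d1a_an.FirstIntegrals

open Pool.Agent.H718R2.G Pool.Agent.TH80.OMS Pool.Agent.W564.SC Pool.Agent.X84.Fm.Defs
open Pool.Agent.X84.Fi

/-- (1) Limits of maps with first integrals, (2) maps with first integrals, (3) generic
diffeomorphisms, (4) surfaces. -/
theorem result (n : ℕ) (N : Type u) [TopologicalSpace N] [T2Space N] [CompactSpace N]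
    [ChartedSpace (V n) N] [IsManifold (𝓡 n) ∞ N] (r : ℕ∞) (hr : 1 ≤ r) :
    (∀ (F : DiffM n N r) (z : N), Approximable n N r F z → Closable n N r F z) ∧
    (∀ (F : DiffM n N r) (k : ℕ) (X : Field (V n) N) (H : N → Fin k → ℝ),
      FirstIntegrals (V n) F X H → ClosingOff F {y | ¬ Regular X H y}) ∧
    (Generic fun f : DiffM n N r => ∀ z, Approximable n N r f z → z ∈ closure (Per f)) ∧
    (n = 2 → ∀ (F : DiffM n N r) (h : N → ℝ), Integral (V n) F h →
      ClosingOff F (CritSet (V n) h)) := by
  refine ⟨fun F z h => closable_limit hr F z h,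
    fun F k X H h => ⟨fun z hz => ?_, fun hc z hz => closable_countable hr F X H h hc z hz⟩,
    generic hr, ?_⟩
  · refine closable_limit hr F z fun U _ hFU => ⟨F, hFU, k, X, H, h, ?_⟩
    have e : Omega F \ {y | ¬ Regular (E := V n) X H y} ⊆ {y | y ∈ Omega F ∧ Regular X H y} :=
      fun y hy => ⟨hy.1, not_not.1 hy.2⟩
    exact closure_mono e hz
  · rintro rfl F h ⟨hh, hF, hB⟩
    exact surface hr F hh hF hB

end Pool.Agent.Results.MP_1e8d1a_an.FirstIntegrals
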