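import Pool.Agent.X204.CLN

/-!
# The `C^r` closing lemma where the nonwandering set is locally countable

`V n = ℝⁿ`, `DiffM n N r = Diff^r(N)`, `strongTop n N r` is its strong (Whitney) `C^r` topology (the
usual one, `N` being compact), `IsPer G z`: `z` is periodic for `G` (`Pool/Agent/H718R2/G0.lean`).
`IsHomPer n N f y`: `y` lies on a homogeneous periodic submanifold, i.e. a compact Lie group `G`
acts smoothly near `C = G y`, the orbit `C` is periodic under `f` with some period `m`, and `f^m`
commutes on `C` with the action (`Pool/Agent/TH80/CLX/Defs.lean`; for the trivial group: `y` is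
periodic).
-/

set_option autoImplicit false

open scoped Manifold ContDiff Topology

universe u

namespace Pool.Agent.Results.MP_1e8d1a_an.LocallyCountable

open Pool.Agent.H718R2.G Pool.Agent.TH80.CLX

/-- the nonwandering set -/
def NonWandering {N : Type u} [TopologicalSpace N] (f : N → N) : Set N :=
  {x | ∀ W : Set N, IsOpen W → x ∈ W → ∃ k : ℕ, 1 ≤ k ∧ ∃ y ∈ W, f^[k] y ∈ W}

/-- the isolated points of the nonwandering set -/
def IsolatedPoints {N : Type u} [TopologicalSpace N] (f : N → N) : Set N :=
  {z | z ∈ NonWandering f ∧ ∃ O : Set N, IsOpen O ∧ z ∈ O ∧ ∀ y ∈ NonWandering f, y ∈ O → y = z}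

/-- The conclusion of the `C^r` closing lemma at `z`: every neighbourhood of `f` in `Diff^r(N)`
contains some `g` for which `z` is periodic. -/
def CanClose (n : ℕ) (N : Type u) [TopologicalSpace N] [ChartedSpace (V n) N] (r : ℕ∞)
    (f : DiffM n N r) (z : N) : Prop :=
  ∀ U : Set (DiffM n N r), IsOpen[strongTop n N r] U → f ∈ U → ∃ g ∈ U, IsPer g z

/-- `Q`: the closure of the set of the periodic points, the points on homogeneous periodic
submanifolds and the isolated nonwandering points -/
def Core (n : ℕ) {N : Type u} [TopologicalSpace N] [ChartedSpace (V n) N] (f : N → N) : Set N :=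
  closure ({y | IsPer f y} ∪ {y | IsHomPer n N f y} ∪ IsolatedPoints f)

/-- (1) the points of `Q` have the property `C`;
(2) if `z ∈ Ω(f)` does not have it then every neighbourhood of `z` contains uncountably many points
of `Ω(f) ∖ Q`;
(3) every point of `Ω(f)` which has a neighbourhood meeting `Ω(f)` in a countable set has it;
(4) if at most countably many points of `Ω(f)` are not limits of periodic points, then all points of
`Ω(f)` have it. -/
def Holds {N : Type u} [TopologicalSpace N] (f : N → N) (Q : Set N) (C : N → Prop) : Prop :=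
  (∀ z ∈ Q, C z) ∧
  (∀ z ∈ NonWandering f, ¬ C z → ∀ O : Set N, IsOpen O → z ∈ O →
    ¬ (O ∩ (NonWandering f \ Q)).Countable) ∧
  (∀ z ∈ NonWandering f, (∃ O : Set N, IsOpen O ∧ z ∈ O ∧ (O ∩ NonWandering f).Countable) → C z) ∧
  ((NonWandering f \ closure {y | IsPer f y}).Countable → ∀ z ∈ NonWandering f, C z)

/-- Let `N` be a closed manifold, `1 ≤ r ≤ ∞` and `f ∈ Diff^r(N)`. Let `Q` be the closure of the set
of the periodic points, the points on homogeneous periodic submanifolds and the isolated points of
the nonwandering set `Ω(f)`.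
(1) The `C^r` closing lemma holds for `f` at every point of `Q`.
(2) If it fails at `z ∈ Ω(f)` then every neighbourhood of `z` contains uncountably many points of
`Ω(f) ∖ Q`.
(3) In particular it holds at every point of `Ω(f)` which has a neighbourhood meeting `Ω(f)` in a
countable set; and (4) at all points of `Ω(f)` if `Ω(f)` contains at most countably many points which
are not limits of periodic points. -/
theorem result {n : ℕ} {N : Type u} [TopologicalSpace N] [T2Space N] [CompactSpace N]
    [ChartedSpace (V n) N] [IsManifold (𝓡 n) ∞ N] (r : ℕ∞) (hr : 1 ≤ r) (f : DiffM n N r) :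
    Holds f (Core n f) (CanClose n N r f) := by
  have hcore : Core n f = Pool.Agent.X204.CLN.Core n f := by
    have e : ({y | IsPer f y} ∪ {y | IsHomPer n N f y} : Set N) = {y | IsHomPer n N f y} := by
      apply Set.union_eq_self_of_subset_left
      intro y hy
      exact Pool.Agent.X204.CLN.isHomPer_of_per f y hy
    unfold Core
    rw [e]
    rfl
  obtain ⟨h1, h2⟩ := Pool.Agent.X204.CLN.main hr f
  have h3 : ∀ z ∈ NonWandering f, (∃ O : Set N, IsOpen O ∧ z ∈ O ∧
      (O ∩ (NonWandering f \ Core n f)).Countable) → CanClose n N r f z := by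
    rintro z hz ⟨O, hO, hzO, hc⟩
    rw [hcore] at hc
    exact h2 z hz O hO hzO hc
  refine ⟨?_, fun z hz hn O hO hzO hc => hn (h3 z hz ⟨O, hO, hzO, hc⟩), ?_, ?_⟩
  · rw [hcore]
    exact h1
  · rintro z hz ⟨O, hO, hzO, hc⟩
    exact h3 z hz ⟨O, hO, hzO, hc.mono (Set.inter_subset_inter_right _ Set.sdiff_subset)⟩
  · intro hc z hz
    refine h3 z hz ⟨Set.univ, isOpen_univ, Set.mem_univ _, ?_⟩
    refine hc.mono ?_
    rintro y ⟨-, hy, hyC⟩
    exact ⟨hy, fun hyP => hyC (closure_mono (fun x hx => Or.inl (Or.inl hx)) hyP)⟩

end Pool.Agent.Results.MP_1e8d1a_an.LocallyCountable
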