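import Pool.Agent.X156.NC.Cor

/-!
# The `C^r` closing lemma at limits of periodic nilmanifolds with affine return maps

`V n = ℝⁿ`, `DiffM n N r = Diff^r(N)`, `strongTop n N r` is its strong (Whitney) `C^r` topology (the
usual one, `N` being compact), `IsPer G z`: `z` is periodic for `G` (`Pool/Agent/H718R2/G0.lean`).

From `Pool/Agent/X156/NC/Defs.lean`:
* `IsRatUnip c`: `c s = exp (s X)` for a strictly upper triangular rational `d × d` matrix `X` (a smooth
  one-parameter group of upper unitriangular matrices which is rational at rational parameters);
* `nilGroup c`: the group generated by the one-parameter groups `c i`;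
* `IsSubAction d n G N O act`: smooth action of the matrix group `G` on the open set `O ⊆ N`;
* `IsIntPt act y`: the stabiliser `Γ` of `y` consists of integral matrices and is cocompact (the orbit is
  `K y` for a compact subset `K` of the group), so the orbit `G y` is the compact nilmanifold `G / Γ`; by
  the theorems of Malcev and Birkhoff every compact nilmanifold is of this form;
* `IsNilPer n N F y`: `y` lies on a periodic nilmanifold `C = G y` of `F`: `F^m(C) = C`, the sets `F^i(C)`,
  `0 < i < m`, do not meet `C`, and on `C` the map `F^m` is affine, `g y ↦ h φ(g) y`, with an ARBITRARY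
  `h ∈ G` and an arbitrary automorphism `φ` of `G` (it may be unipotent, hyperbolic, partially
  hyperbolic, ...). Nothing is required of `F` elsewhere.

Special cases: all affine diffeomorphisms of all compact nilmanifolds (in particular of tori), at all
points (`Pool.Agent.X156.NC.affine`), and the maps in the second part of the theorem, for example all
skew products with affine nilmanifold fibre maps `(x, g Γ) ↦ (f(x), h(x) φ(g) Γ)` over diffeomorphisms
`f` with dense periodic points.

The starting results on homogeneous submanifolds treat compact groups and `SL(d, ℝ)`, with translations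
as return maps; the reduction to the group (`Pert.lean`) is the one of `Pool/Agent/Y368/SLD/Step.lean`.
-/

set_option autoImplicit false

open scoped Manifold ContDiff Topology

namespace Pool.Agent.Results.MP_1e8d1a_an.NilAffineClosing

open Pool.Agent.H718R2.G Pool.Agent.Y368.SLD Pool.Agent.X156.NC

/-- Let `N` be a closed manifold, `F ∈ Diff^r(N)` (`0 ≤ r ≤ ∞`) and `z ∈ N`. The conclusion of the `C^r`
closing lemma holds for `F` at `z` in each of the following cases.

(1) Arbitrarily `C^r`-close to `F` there are diffeomorphisms `F'` (for example `F' = F`) for which `z` is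
a limit of points lying on periodic nilmanifolds with affine return maps.

(2) The unipotent group `G` generated by the rational one-parameter groups `c i` acts smoothly on `N`,
`F (g w) = φ(g) F(w)` for all `g ∈ G` and `w ∈ N`, with a surjective endomorphism `φ` of `G`, and `z` is a
limit of points `y` whose orbit `G y` is a compact nilmanifold (`IsIntPt act y`) and is periodic,
`F^m(y) ∈ G y` for some `m ≥ 1` (`Returns act F y`). -/
theorem result {n : ℕ} {N : Type*} [TopologicalSpace N] [T2Space N] [CompactSpace N]
    [ChartedSpace (V n) N] [IsManifold (𝓡 n) ∞ N] (r : ℕ∞) (F : DiffM n N r) (z : N)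
    (h : (∀ U : Set (DiffM n N r), IsOpen[strongTop n N r] U → F ∈ U →
        ∃ F' ∈ U, z ∈ closure {y | IsNilPer n N F' y}) ∨
      ∃ (d : ℕ) (ι : Type) (c : ι → ℝ → SLd d) (act : nilGroup c → N → N)
        (φ : nilGroup c →* nilGroup c), IsTwisted (n := n) c act φ F ∧
          z ∈ closure {y | Returns act F y}) :
    ∀ U : Set (DiffM n N r), IsOpen[strongTop n N r] U → F ∈ U → ∃ G ∈ U, IsPer G z := by
  rcases h with h | ⟨d, ι, c, act, φ, h1, h2⟩
  · exact main F z h
  · exact equivariant F h1 z h2

end Pool.Agent.Results.MP_1e8d1a_an.NilAffineClosing
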