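import Pool.Agent.X183.PC.Close
import Pool.Agent.Y368.GG.Main

/-!
# The `C^r` closing lemma on periodic closed curves

`V n = ℝⁿ`, `DiffM n N r = Diff^r(N)`, `strongTop n N r` is its strong (Whitney) `C^r` topology (the
usual one, `N` being compact), `IsPer G z`: `z` is periodic for `G` (`Pool/Agent/H718R2/G0.lean`).
`IsFlow n N ψ`: `ψ` is a smooth action of `ℝ` on `N` (`Pool/Agent/TH290/CL/Flow.lean`).
`IsClosedCurve n N C`: `C` is a nonconstant periodic orbit of some smooth flow on `N`; these are the
smoothly embedded circles. `IsPerSet F C`: `F^m(C) ⊆ C` for some `m ≥ 1`, and `F^i(C)` does not meet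
`C` for `0 < i < m`. `GoodPt n F y`: `y` lies on a smooth closed curve `C` which is periodic under
`F`, and `y` is recurrent (`Rec`: `y` is a limit of `F^k(y)`, `k ≥ 1`) or `C` contains no periodic
point of `F` (`Per`). (`Pool/Agent/X183/PC/Main.lean`, `Close.lean`.)
In (2), generic means: all `f` in the intersection of a sequence `R j` of open dense subsets of
`Diff^r(N)`.

Nothing is assumed about the dynamics of `F^m` on `C`: the rotation number may be any irrational
number (Liouville numbers included), the return map need not be conjugate to a rotation by a smooth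
map, and for `r = 1` the point may be in a wandering interval of a Denjoy map. Nothing is assumed
about `F` outside of `C`.
-/

set_option autoImplicit false

open scoped Manifold ContDiff Topology

universe u

namespace Pool.Agent.Results.MP_1e8d1a_an.PeriodicClosedCurves

open Pool.Agent.H718R2.G Pool.Agent.TH80.OMS Pool.Agent.X183.PC

/-- Let `N` be a closed `n`-manifold and `1 ≤ r ≤ ∞`.

(1) Let `F ∈ Diff^r(N)` and `z ∈ N`. Suppose that arbitrarily `C^r`-close to `F` there are
diffeomorphisms `F'` (for example `F' = F`) for which `z` is a limit of points `y` which lie on a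
smooth closed curve `C` that is periodic under `F'`, such that `y` is recurrent for `F'` or `C`
contains no periodic point of `F'`. Then the conclusion of the `C^r` closing lemma holds for `F` at
`z`: every neighbourhood of `F` contains a diffeomorphism for which `z` is periodic.

(2) For generic `f ∈ Diff^r(N)` all such points `y` of `f` are limits of periodic points of `f`; in
particular every smooth closed curve which is periodic under `f` contains a periodic point or
consists of limits of periodic points. -/
theorem result {n : ℕ} {N : Type u} [TopologicalSpace N] [T2Space N] [CompactSpace N]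
    [ChartedSpace (V n) N] [IsManifold (𝓡 n) ∞ N] (r : ℕ∞) (hr : 1 ≤ r) :
    (∀ (F : DiffM n N r) (z : N),
      (∀ U : Set (DiffM n N r), IsOpen[strongTop n N r] U → F ∈ U →
        ∃ F' ∈ U, z ∈ closure {y | GoodPt n F' y}) →
      ∀ U : Set (DiffM n N r), IsOpen[strongTop n N r] U → F ∈ U → ∃ G ∈ U, IsPer G z) ∧
    ∃ R : ℕ → Set (DiffM n N r), (∀ j, IsOpen[strongTop n N r] (R j)) ∧
      (∀ j, @Dense _ (strongTop n N r) (R j)) ∧
      ∀ f : DiffM n N r, (∀ j, f ∈ R j) → (∀ y, GoodPt n f y → y ∈ closure (Per f)) ∧
        ∀ C : Set N, IsClosedCurve n N C → IsPerSet f C →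
          (C ∩ Per f).Nonempty ∨ C ⊆ closure (Per f) := by
  refine ⟨fun F z h => closing_main r hr F z h, ?_⟩
  obtain ⟨R, hR1, hR2, hR3⟩ := Pool.Agent.Y368.GG.generic_closable (n := n) (N := N) r hr
  refine ⟨R, hR1, hR2, fun f hfR => ?_⟩
  have hf := hR3 f hfR
  have h1 : ∀ y, GoodPt n f y → y ∈ closure (Per f) := fun y hy =>
    hf y (closable_good r hr f y hy)
  refine ⟨h1, fun C hC hP => ?_⟩
  by_cases hd : (C ∩ Per f).Nonempty
  · exact Or.inl hd
  · refine Or.inr fun y hy => h1 y ⟨C, hC, hP, hy, Or.inr ?_⟩
    rw [Set.disjoint_iff_inter_eq_empty]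
    exact Set.not_nonempty_iff_eq_empty.1 hd

end Pool.Agent.Results.MP_1e8d1a_an.PeriodicClosedCurves
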